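import Pool.Agent.Q181.WI.Kill

set_option autoImplicit false

namespace Pool.Agent.Results.MP_0c3956_an.PiecewiseSyndetic

open Pool.Agent.Q181.WI

universe u

/-- No syndetic (even no piecewise syndetic) set of natural numbers is a weak interpolation set
of order `2` for the class of the uniquely ergodic systems. -/
theorem result :
    (¬ ∃ S : Set ℕ, Syndetic S ∧ WeakInterp.{u} 2 S) ∧
      ∀ S : Set ℕ, Pool.Agent.Q181.WI.PiecewiseSyndetic S → ¬ WeakInterp.{u} 2 S :=
  ⟨fun ⟨_, h1, h2⟩ => not_two h1.piecewise h2, fun _ h => not_two h⟩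

end Pool.Agent.Results.MP_0c3956_an.PiecewiseSyndetic
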